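import Pool.Agent.H343.QF.StG

set_option autoImplicit false
set_option linter.unusedSectionVars false

namespace Pool.Agent.H653.QF

open Pool.Agent.TH68 Pool.Agent.Helper97.Hyp Pool.Agent.H343.AN Pool.Agent.H343.QF

theorem mb : S_cproj → S_ma → S_mb := by
  intro hc hm Γ _ W a b δ D R X lam s E Λ h5 v i k
  obtain ⟨P, hP⟩ := hc h5 (pt W (v * a ^ i))
  obtain ⟨Q, hQ⟩ := hc h5 (pt W (v * a ^ k))
  obtain ⟨i', rfl⟩ := hP.1
  obtain ⟨k', rfl⟩ := hQ.1
  have h1 := h5.good.one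
  have h2 := h5.good.le
  have h3 := h5.hR
  have h4 := h5.hE
  have h6 : (E : ℝ) ≤ Λ := by exact_mod_cast h5.hΛ
  have hδ : 10 ^ 6 * δ ≤ (Λ : ℝ) := by nlinarith
  have hΛ : (0 : ℝ) < Λ := by nlinarith
  set p := pt W (v * a ^ i) with hp
  set q := pt W (v * a ^ k) with hq
  have hpL : p ∈ Ln W a v := ⟨i, rfl⟩
  have hqL : q ∈ Ln W a v := ⟨k, rfl⟩
  by_contra hcon
  push Not at hcon
  have e1 := pd_le_of_proj hP hQ
  have e2 := far_of_proj h5.good.hyp hP hQ (by linarith)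
  have e3 := le_pd (p := pt W (X i')) (q := pt W (X k')) hqL hpL
  have e4 := hm h5 v i' k'
  have e5 := dist_triangle p (pt W (X i')) q
  have e6 := dist_triangle p (pt W (X k')) q
  rw [dist_comm p (pt W (X i'))] at e5 e2
  rw [dist_comm q (pt W (X k'))] at e2
  rw [dist_comm p (pt W (X k'))] at e6
  linarith

end Pool.Agent.H653.QF
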